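import Pool.Agent.Run7.h447.FR.Two

set_option autoImplicit false

namespace Pool.Agent.Run7.h447.FR

open Finset

variable {α : Type*} [DecidableEq α]

/-- The function `h` on the subsets of `V` (a polymatroid minus the all-ones vector). -/
structure Core (V : Finset α) (h : Finset α → ℤ) : Prop where
  emp : h ∅ = 0
  top : h V = 0
  sub : ∀ A B, A ⊆ V → B ⊆ V → h (A ∪ B) + h (A ∩ B) ≤ h A + h B
  pos : ∀ A, A ⊆ V → 0 ≤ h A
  one : ∀ i ∈ V, h {i} ≤ 1
  one' : ∀ i ∈ V, h (V.erase i) ≤ 1
  two : ∀ A, A ⊆ V → h A ≤ 2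

/-- The wanted vector. -/
def Res (V : Finset α) (h : Finset α → ℤ) : Prop :=
  ∃ y : α → ℤ, (∀ A, A ⊆ V → ∑ i ∈ A, y i ≤ h A) ∧ (∀ A, A ⊆ V → -∑ i ∈ A, y i ≤ h A) ∧
    ∀ i ∈ V, ∃ A, A ⊆ V ∧ i ∉ A ∧ ∑ j ∈ A, y j = h A ∧ ∑ j ∈ insert i A, y j = h (insert i A)

/-- `e_p - e_q` works. -/
def Good (V : Finset α) (h : Finset α → ℤ) (p q : α) : Prop :=
  ∀ i ∈ V, i ≠ p → i ≠ q → ∃ A, A ⊆ V ∧ p ∈ A ∧ q ∉ A ∧ i ∉ A ∧ h A ≤ 1 ∧ h (insert i A) ≤ 1

theorem good_res {V : Finset α} {h : Finset α → ℤ} (hc : Core V h)
    (h1 : ∀ A, A ⊆ V → A ≠ ∅ → A ≠ V → 1 ≤ h A) {p q : α} (hp : p ∈ V) (hq : q ∈ V)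
    (hpq : p ≠ q) (hg : Good V h p q) : Res V h := by
  have hsum : ∀ A : Finset α, ∑ j ∈ A, ((if j = p then (1 : ℤ) else 0) - (if j = q then 1 else 0))
      = (if p ∈ A then (1 : ℤ) else 0) - (if q ∈ A then 1 else 0) := by
    intro A
    rw [Finset.sum_sub_distrib, Finset.sum_ite_eq', Finset.sum_ite_eq']
  have hlow : ∀ A, A ⊆ V → p ∈ A → q ∉ A → 1 ≤ h A := by
    intro A hA hpA hqA
    exact h1 A hA (Finset.ne_empty_of_mem hpA) (fun h => hqA (h ▸ hq))
  have hlow' : ∀ A, A ⊆ V → q ∈ A → p ∉ A → 1 ≤ h A := by
    intro A hA hpA hqA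
    exact h1 A hA (Finset.ne_empty_of_mem hpA) (fun h => hqA (h ▸ hp))
  refine ⟨fun j => (if j = p then (1 : ℤ) else 0) - (if j = q then 1 else 0), ?_, ?_, ?_⟩
  · intro A hA
    rw [hsum]
    have := hc.pos A hA
    by_cases hpA : p ∈ A <;> by_cases hqA : q ∈ A <;> simp [hpA, hqA]
    · exact this
    · exact hlow A hA hpA hqA
    · omega
    · exact this
  · intro A hA
    rw [hsum]
    have := hc.pos A hA
    by_cases hpA : p ∈ A <;> by_cases hqA : q ∈ A <;> simp [hpA, hqA]
    · exact this
    · omega
    · exact hlow' A hA hqA hpA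
    · exact this
  · intro i hi
    by_cases hip : i = p
    · subst hip
      refine ⟨∅, Finset.empty_subset _, Finset.notMem_empty _, by simp [hc.emp], ?_⟩
      rw [hsum]
      have e : (insert i (∅ : Finset α)) = {i} := rfl
      rw [e]
      have a1 := hc.one i hi
      have a2 := hlow {i} (by simpa using hi) (by simp) (by simp [Ne.symm hpq])
      simp [Ne.symm hpq]
      omega
    · by_cases hiq : i = q
      · subst hiq
        refine ⟨V.erase i, Finset.erase_subset _ _, Finset.notMem_erase _ _, ?_, ?_⟩
        · rw [hsum]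
          have a1 := hc.one' i hi
          have a2 := hlow (V.erase i) (Finset.erase_subset _ _)
            (Finset.mem_erase.mpr ⟨hpq, hp⟩) (Finset.notMem_erase _ _)
          simp [hpq, hp]
          omega
        · rw [hsum, Finset.insert_erase hi, hc.top]
          simp [hp, hi]
      · obtain ⟨A, hA, hpA, hqA, hiA, b1, b2⟩ := hg i hi hip hiq
        refine ⟨A, hA, hiA, ?_, ?_⟩
        · rw [hsum]
          have := hlow A hA hpA hqA
          simp [hpA, hqA]
          omega
        · rw [hsum]
          have hA' : insert i A ⊆ V := Finset.insert_subset hi hA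
          have hq' : q ∉ insert i A := by simp [Ne.symm hiq, hqA]
          have hp' : p ∈ insert i A := Finset.mem_insert_of_mem hpA
          have := hlow (insert i A) hA' hp' hq'
          rw [if_pos hp', if_neg hq']
          omega

theorem match_res {V : Finset α} {h : Finset α → ℤ} (hc : Core V h)
    (h1 : ∀ A, A ⊆ V → A ≠ ∅ → A ≠ V → 1 ≤ h A) {a b c d : α} (ha : a ∈ V) (hb : b ∈ V)
    (hcV : c ∈ V) (hd : d ∈ V) (hab : a ≠ b) (hac : a ≠ c) (had : a ≠ d) (hbc : b ≠ c)
    (hbd : b ≠ d) (hcd : c ≠ d) (e1 : 2 ≤ h {a, b}) (e2 : 2 ≤ h (V \ {a, b}))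
    (e3 : 2 ≤ h {c, d}) (e4 : 2 ≤ h (V \ {c, d})) : Res V h := by
  have key : ∀ a b c d : α, a ∈ V → b ∈ V → c ∈ V → d ∈ V → a ≠ c → a ≠ d → b ≠ c → b ≠ d →
      2 ≤ h {a, b} → 2 ≤ h (V \ {c, d}) → ∀ A, A ⊆ V → a ∈ A → b ∈ A → c ∉ A → d ∉ A →
      2 ≤ h A := by
    intro a b c d ha hb hcV hd hac had hbc hbd g1 g2 A hA haA hbA hcA hdA
    have hT : {a, b} ∪ ((V \ {c, d}) \ A) ⊆ V := by
      intro j hj
      simp only [Finset.mem_union, Finset.mem_insert, Finset.mem_singleton, Finset.mem_sdiff] at hj
      grind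
    have s := hc.sub A _ hA hT
    have t := hc.two _ hT
    have eU : A ∪ ({a, b} ∪ ((V \ {c, d}) \ A)) = V \ {c, d} := by
      ext j
      simp only [Finset.mem_union, Finset.mem_insert, Finset.mem_singleton, Finset.mem_sdiff]
      grind
    have eI : A ∩ ({a, b} ∪ ((V \ {c, d}) \ A)) = {a, b} := by
      ext j
      simp only [Finset.mem_union, Finset.mem_insert, Finset.mem_singleton, Finset.mem_sdiff,
        Finset.mem_inter]
      grind
    rw [eU, eI] at s
    omega
  have k1 := key a b c d ha hb hcV hd hac had hbc hbd e1 e4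
  have k2 := key c d a b hcV hd ha hb (Ne.symm hac) (Ne.symm hbc) (Ne.symm had) (Ne.symm hbd) e3 e2
  have hsum : ∀ A : Finset α, ∑ j ∈ A, ((if j = a then (1 : ℤ) else 0) + (if j = b then 1 else 0)
      - (if j = c then 1 else 0) - (if j = d then 1 else 0))
      = (if a ∈ A then (1 : ℤ) else 0) + (if b ∈ A then 1 else 0) - (if c ∈ A then 1 else 0)
        - (if d ∈ A then 1 else 0) := by
    intro A
    rw [Finset.sum_sub_distrib, Finset.sum_sub_distrib, Finset.sum_add_distrib,
      Finset.sum_ite_eq', Finset.sum_ite_eq', Finset.sum_ite_eq', Finset.sum_ite_eq']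
  have ne1 : ∀ A, A ⊆ V → ∀ x ∈ V, ∀ z ∈ V, x ∈ A → z ∉ A → 1 ≤ h A := by
    intro A hA x hx z hz hxA hzA
    exact h1 A hA (Finset.ne_empty_of_mem hxA) (fun h => hzA (h ▸ hz))
  refine ⟨_, fun A hA => (hsum A).trans_le ?_, fun A hA => (congrArg Neg.neg (hsum A)).trans_le ?_,
    ?_⟩
  · have p0 := hc.pos A hA
    have q0 := k1 A hA
    have q1 := ne1 A hA
    grind
  · have p0 := hc.pos A hA
    have q0 := k2 A hA
    have q1 := ne1 A hA
    grind
  · intro i hi
    have tw := hc.two
    by_cases hia : i = a
    · subst hia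
      refine ⟨∅, Finset.empty_subset _, Finset.notMem_empty _, by simp [hc.emp], ?_⟩
      rw [hsum]
      have e : (insert i (∅ : Finset α)) = {i} := rfl
      rw [e]
      have a1 := hc.one i hi
      have a2 := ne1 {i} (by simpa using hi) i hi b hb (by simp) (by simp [Ne.symm hab])
      simp [Ne.symm hab, Ne.symm hac, Ne.symm had]
      omega
    · by_cases hib : i = b
      · subst hib
        refine ⟨{a}, by simpa using ha, by simp [hia], ?_, ?_⟩
        · rw [hsum]
          have a1 := hc.one a ha
          have a2 := ne1 {a} (by simpa using ha) a ha i hi (by simp) (by simp [hia])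
          simp [hia, Ne.symm hac, Ne.symm had]
          omega
        · rw [hsum]
          have e : insert i ({a} : Finset α) = {a, i} := Finset.pair_comm _ _
          rw [e]
          have a1 := tw {a, i} (by intro j hj; simp at hj; grind)
          simp [Ne.symm hac, Ne.symm had, Ne.symm hbc, Ne.symm hbd]
          omega
      · by_cases hid : i = d
        · subst hid
          refine ⟨V.erase i, Finset.erase_subset _ _, Finset.notMem_erase _ _, ?_, ?_⟩
          · rw [hsum]
            have a1 := hc.one' i hi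
            have a2 := ne1 (V.erase i) (Finset.erase_subset _ _) a ha i hi
              (Finset.mem_erase.mpr ⟨had, ha⟩) (Finset.notMem_erase _ _)
            simp [had, hbd, hcd, ha, hb, hcV]
            omega
          · rw [hsum, Finset.insert_erase hi, hc.top]
            simp [ha, hb, hcV, hi]
        · by_cases hic : i = c
          · subst hic
            refine ⟨V \ {i, d}, Finset.sdiff_subset, by simp, ?_, ?_⟩
            · rw [hsum]
              have a1 := tw (V \ {i, d}) Finset.sdiff_subset
              simp [hac, had, hbc, hbd, ha, hb]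
              omega
            · rw [hsum]
              have e : insert i (V \ {i, d}) = V.erase d := by
                ext j
                simp only [Finset.mem_insert, Finset.mem_sdiff, Finset.mem_erase,
                  Finset.mem_singleton]
                grind
              rw [e]
              have a1 := hc.one' d hd
              have a2 := ne1 (V.erase d) (Finset.erase_subset _ _) a ha d hd
                (Finset.mem_erase.mpr ⟨had, ha⟩) (Finset.notMem_erase _ _)
              simp [had, hbd, hcd, ha, hb, hcV]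
              omega
          · have hab' : ({a, b} : Finset α) ⊆ V := by
              intro j hj; simp at hj; grind
            have hi' : insert i ({a, b} : Finset α) ⊆ V := Finset.insert_subset hi hab'
            refine ⟨{a, b}, hab', by simp [hia, hib], ?_, ?_⟩
            · rw [hsum]
              have a1 := tw {a, b} hab'
              simp [Ne.symm hac, Ne.symm had, Ne.symm hbc, Ne.symm hbd]
              omega
            · rw [hsum]
              have a1 := tw _ hi'
              have a2 := k1 _ hi' (by simp) (by simp) (by simp; grind) (by simp; grind)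
              have m1 : a ∈ insert i ({a, b} : Finset α) := by simp
              have m2 : b ∈ insert i ({a, b} : Finset α) := by simp
              have m3 : c ∉ insert i ({a, b} : Finset α) := by simp; grind
              have m4 : d ∉ insert i ({a, b} : Finset α) := by simp; grind
              rw [if_pos m1, if_pos m2, if_neg m3, if_neg m4]
              omega

end Pool.Agent.Run7.h447.FR
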