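import Pool.Agent.Run7.h447.FR.Main

set_option autoImplicit false

namespace Pool.Agent.Run7.h447.FR

open Finset

variable {n : ℕ}

/-- Criterion for an extreme point. -/
theorem extreme_of_tight (f : Finset (Fin n) → ℤ) (v : Fin n → ℝ)
    (hv : (∀ i, 0 ≤ v i) ∧ ∀ A : Finset (Fin n), ∑ i ∈ A, v i ≤ (f A : ℝ))
    (ht : ∀ i, ∃ A : Finset (Fin n), i ∉ A ∧ ∑ j ∈ A, v j = (f A : ℝ) ∧
      ∑ j ∈ insert i A, v j = (f (insert i A) : ℝ)) :
    v ∈ Set.extremePoints ℝ {x : Fin n → ℝ | (∀ i, 0 ≤ x i) ∧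
      ∀ A : Finset (Fin n), ∑ i ∈ A, x i ≤ (f A : ℝ)} := by
  refine ⟨hv, ?_⟩
  have key : ∀ x1 x2 : Fin n → ℝ, (∀ A : Finset (Fin n), ∑ i ∈ A, x1 i ≤ (f A : ℝ)) →
      (∀ A : Finset (Fin n), ∑ i ∈ A, x2 i ≤ (f A : ℝ)) → v ∈ openSegment ℝ x1 x2 → x1 = v := by
    intro x1 x2 h1 h2 hseg
    obtain ⟨a, b, ha, hb, hab, rfl⟩ := hseg
    have tight : ∀ A : Finset (Fin n), ∑ j ∈ A, (a • x1 + b • x2) j = (f A : ℝ) →
        ∑ j ∈ A, x1 j = (f A : ℝ) := by
      intro A hA
      have e : ∑ j ∈ A, (a • x1 + b • x2) j = a * ∑ j ∈ A, x1 j + b * ∑ j ∈ A, x2 j := by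
        rw [Finset.mul_sum, Finset.mul_sum, ← Finset.sum_add_distrib]
        apply Finset.sum_congr rfl
        intro j _
        simp
      rw [e] at hA
      have u1 := h1 A
      have u2 := h2 A
      have hb' : b = 1 - a := by linarith
      subst hb'
      nlinarith
    funext i
    obtain ⟨A, hiA, t1, t2⟩ := ht i
    have s1 := tight _ t1
    have s2 := tight _ t2
    rw [Finset.sum_insert hiA] at t2 s2
    rw [t1] at t2
    rw [s1] at s2
    linarith
  intro x1 hx1 x2 hx2 hseg
  exact key x1 x2 hx1.2 hx2.2 hseg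

/-- `h ≤ 2` holds automatically on at most five elements. -/
theorem two_of_small {α : Type*} [DecidableEq α] {V : Finset α} {h : Finset α → ℤ}
    (emp : h ∅ = 0) (top : h V = 0)
    (sub : ∀ A B, A ⊆ V → B ⊆ V → h (A ∪ B) + h (A ∩ B) ≤ h A + h B)
    (pos : ∀ A, A ⊆ V → 0 ≤ h A) (one : ∀ i ∈ V, h {i} ≤ 1)
    (one' : ∀ i ∈ V, h (V.erase i) ≤ 1) (hV : V.card ≤ 5) : ∀ A, A ⊆ V → h A ≤ 2 := by
  have up : ∀ A : Finset α, A ⊆ V → h A ≤ (A.card : ℤ) := by
    intro A
    induction A using Finset.induction_on with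
    | empty => intro _; simp [emp]
    | insert i S hiS ih =>
      intro hS
      have hi : i ∈ V := hS (Finset.mem_insert_self i S)
      have hS' : S ⊆ V := (Finset.subset_insert i S).trans hS
      have hsi : ({i} : Finset α) ⊆ V := Finset.singleton_subset_iff.mpr hi
      have s := sub {i} S hsi hS'
      have e : ({i} : Finset α) ∩ S = ∅ := Finset.singleton_inter_of_notMem hiS
      have e2 : ({i} : Finset α) ∪ S = insert i S := rfl
      rw [e, emp, e2] at s
      have u := one i hi
      have v := ih hS'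
      rw [Finset.card_insert_of_notMem hiS]
      push_cast
      omega
  have dn : ∀ B : Finset α, B ⊆ V → h (V \ B) ≤ (B.card : ℤ) := by
    intro A
    induction A using Finset.induction_on with
    | empty => intro _; simp [top]
    | insert i S hiS ih =>
      intro hS
      have hi : i ∈ V := hS (Finset.mem_insert_self i S)
      have hS' : S ⊆ V := (Finset.subset_insert i S).trans hS
      have s := sub (V \ S) (V.erase i) Finset.sdiff_subset (Finset.erase_subset _ _)
      have e : (V \ S) ∩ (V.erase i) = V \ insert i S := by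
        ext j; simp only [mem_inter, mem_sdiff, mem_erase, mem_insert]; grind
      rw [e] at s
      have w := pos (V \ S ∪ V.erase i) (Finset.union_subset Finset.sdiff_subset
        (Finset.erase_subset _ _))
      have u := one' i hi
      have v := ih hS'
      rw [Finset.card_insert_of_notMem hiS]
      push_cast
      omega
  intro A hA
  have u1 := up A hA
  have u2 := dn (V \ A) Finset.sdiff_subset
  rw [Finset.sdiff_sdiff_eq_self hA] at u2
  have c := Finset.card_sdiff_add_card_eq_card hA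
  omega

theorem frank_of_two (f : Finset (Fin n) → ℤ) (f0 : f ∅ = 0) (hmono : Monotone f)
    (hsub : ∀ A B : Finset (Fin n), f (A ∪ B) + f (A ∩ B) ≤ f A + f B)
    (f2 : ∀ e : Fin n, f {e} ≤ 2) (W0 : Finset (Fin n))
    (hW0 : ∀ A : Finset (Fin n), (A.card : ℤ) + ((A ∩ W0).card : ℤ) ≤ f A)
    (hex : ∀ W : Finset (Fin n), W0 ⊆ W →
      n ≤ 5 ∨ ∀ A : Finset (Fin n), A ⊆ univ \ W →
        f (A ∪ W) ≤ (A.card : ℤ) + 2 * (W.card : ℤ) + 2) :
    ∃ v ∈ Set.extremePoints ℝ
        {x : Fin n → ℝ | (∀ i, 0 ≤ x i) ∧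
          ∀ A : Finset (Fin n), ∑ i ∈ A, x i ≤ (f A : ℝ)},
      (∀ i, 0 ≤ 2 - v i) ∧
        ∀ A : Finset (Fin n), ∑ i ∈ A, (2 - v i) ≤ (f A : ℝ) := by
  classical
  -- a maximal set W with `1 + χ_W` in P
  obtain ⟨W, hWW, hW, hmax⟩ : ∃ W : Finset (Fin n), W0 ⊆ W ∧
      (∀ A : Finset (Fin n), (A.card : ℤ) + ((A ∩ W).card : ℤ) ≤ f A) ∧
      ∀ W' : Finset (Fin n), W0 ⊆ W' →
        (∀ A : Finset (Fin n), (A.card : ℤ) + ((A ∩ W').card : ℤ) ≤ f A) →
        W'.card ≤ W.card := by
    obtain ⟨W, hW, hm⟩ := Finset.exists_max_image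
      (Finset.univ.filter (fun W : Finset (Fin n) => W0 ⊆ W ∧
        ∀ A : Finset (Fin n), (A.card : ℤ) + ((A ∩ W).card : ℤ) ≤ f A)) Finset.card
      ⟨W0, Finset.mem_filter.mpr ⟨Finset.mem_univ _, Finset.Subset.refl _, hW0⟩⟩
    exact ⟨W, (Finset.mem_filter.mp hW).2.1, (Finset.mem_filter.mp hW).2.2,
      fun W' h0 hW' => hm W' (Finset.mem_filter.mpr ⟨Finset.mem_univ _, h0, hW'⟩)⟩
  have cardI : ∀ A B C : Finset (Fin n), ((A ∪ B) ∩ C).card + ((A ∩ B) ∩ C).card
      = (A ∩ C).card + (B ∩ C).card := by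
    intro A B C
    have e1 : (A ∪ B) ∩ C = (A ∩ C) ∪ (B ∩ C) := by
      ext j; simp only [mem_union, mem_inter]; grind
    have e2 : (A ∩ B) ∩ C = (A ∩ C) ∩ (B ∩ C) := by
      ext j; simp only [mem_inter]; grind
    rw [e1, e2]; exact Finset.card_union_add_card_inter _ _
  -- tight sets
  have tightU : ∀ A B : Finset (Fin n), f A = (A.card : ℤ) + ((A ∩ W).card : ℤ) →
      f B = (B.card : ℤ) + ((B ∩ W).card : ℤ) →
      f (A ∪ B) = ((A ∪ B).card : ℤ) + (((A ∪ B) ∩ W).card : ℤ) := by
    intro A B hA hB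
    have s := hsub A B
    have u1 := hW (A ∪ B)
    have u2 := hW (A ∩ B)
    have c1 := Finset.card_union_add_card_inter A B
    have c2 := cardI A B W
    omega
  have cover : ∀ i : Fin n, ∃ A : Finset (Fin n), i ∈ A ∧
      f A = (A.card : ℤ) + ((A ∩ W).card : ℤ) := by
    intro i
    by_cases hi : i ∈ W
    · refine ⟨{i}, by simp, ?_⟩
      have u1 := hW {i}
      have u2 := f2 i
      have e : ({i} : Finset (Fin n)) ∩ W = {i} := by
        rw [Finset.singleton_inter_of_mem hi]
      rw [e] at u1 ⊢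
      simp only [Finset.card_singleton] at u1 ⊢
      omega
    · by_contra hcon
      push Not at hcon
      have : (insert i W).card ≤ W.card := by
        apply hmax _ (hWW.trans (Finset.subset_insert i W))
        intro A
        have u1 := hW A
        by_cases hiA : i ∈ A
        · have u2 := hcon A hiA
          have e : A ∩ insert i W = insert i (A ∩ W) := Finset.inter_insert_of_mem hiA
          have u3 : (insert i (A ∩ W)).card ≤ (A ∩ W).card + 1 := Finset.card_insert_le _ _
          rw [e]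
          omega
        · rw [Finset.inter_insert_of_notMem hiA]; exact u1
      rw [Finset.card_insert_of_notMem hi] at this
      omega
  have tightAll : f univ = ((univ : Finset (Fin n)).card : ℤ)
      + (((univ : Finset (Fin n)) ∩ W).card : ℤ) := by
    have H : ∀ S : Finset (Fin n), ∃ A : Finset (Fin n), S ⊆ A ∧
        f A = (A.card : ℤ) + ((A ∩ W).card : ℤ) := by
      intro S
      induction S using Finset.induction_on with
      | empty => exact ⟨∅, Finset.Subset.refl _, by simp [f0]⟩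
      | insert i S hiS ih =>
        obtain ⟨A, hSA, hA⟩ := ih
        obtain ⟨B, hiB, hB⟩ := cover i
        refine ⟨A ∪ B, ?_, tightU A B hA hB⟩
        intro j hj
        rcases Finset.mem_insert.mp hj with h | h
        · rw [h]; exact Finset.mem_union_right _ hiB
        · exact Finset.mem_union_left _ (hSA h)
    obtain ⟨A, hA, hA'⟩ := H univ
    rw [Finset.univ_subset_iff.mp hA] at hA'
    exact hA'
  have hfW : f W = 2 * (W.card : ℤ) := by
    have up : ∀ S : Finset (Fin n), f S ≤ 2 * (S.card : ℤ) := by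
      intro S
      induction S using Finset.induction_on with
      | empty => simp [f0]
      | insert i S hiS ih =>
        have s := hsub {i} S
        have e : ({i} : Finset (Fin n)) ∩ S = ∅ := Finset.singleton_inter_of_notMem hiS
        have e2 : ({i} : Finset (Fin n)) ∪ S = insert i S := rfl
        rw [e, f0, e2] at s
        have u := f2 i
        rw [Finset.card_insert_of_notMem hiS]
        push_cast
        omega
    have u1 := up W
    have u2 := hW W
    rw [Finset.inter_self] at u2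
    omega
  have cardD : ∀ A : Finset (Fin n), A ⊆ univ \ W → (A ∪ W).card = A.card + W.card := by
    intro A hA
    apply Finset.card_union_of_disjoint
    exact Finset.disjoint_of_subset_left hA Finset.sdiff_disjoint
  obtain ⟨h, hh⟩ : ∃ h : Finset (Fin n) → ℤ,
      h = fun A => f (A ∪ W) - 2 * (W.card : ℤ) - (A.card : ℤ) := ⟨_, rfl⟩
  have hA_ : ∀ A, h A = f (A ∪ W) - 2 * (W.card : ℤ) - (A.card : ℤ) := fun A => by rw [hh]
  have c_emp : h ∅ = 0 := by
    rw [hA_, Finset.empty_union, hfW]; simp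
  have c_top : h (univ \ W) = 0 := by
    rw [hA_]
    have c := cardD (univ \ W) (Finset.Subset.refl _)
    rw [Finset.sdiff_union_of_subset (Finset.subset_univ W)] at c ⊢
    rw [Finset.univ_inter] at tightAll
    omega
  have c_sub : ∀ A B, A ⊆ univ \ W → B ⊆ univ \ W → h (A ∪ B) + h (A ∩ B) ≤ h A + h B := by
    intro A B hA hB
    have s := hsub (A ∪ W) (B ∪ W)
    have e1 : A ∪ W ∪ (B ∪ W) = A ∪ B ∪ W := by ext j; simp only [mem_union]; grind
    have e2 : (A ∪ W) ∩ (B ∪ W) = A ∩ B ∪ W := by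
      ext j; simp only [mem_union, mem_inter]; grind
    rw [e1, e2] at s
    have c1 := Finset.card_union_add_card_inter A B
    rw [hA_, hA_, hA_, hA_]
    omega
  have c_pos : ∀ A, A ⊆ univ \ W → 0 ≤ h A := by
    intro A hA
    have u := hW (A ∪ W)
    have c := cardD A hA
    have e : (A ∪ W) ∩ W = W := by ext j; simp only [mem_union, mem_inter]; grind
    rw [e] at u
    rw [hA_]
    omega
  have c_one : ∀ i ∈ univ \ W, h {i} ≤ 1 := by
    intro i hi
    have s := hsub {i} W
    have hiW : i ∉ W := (mem_sdiff.mp hi).2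
    have e : ({i} : Finset (Fin n)) ∩ W = ∅ := Finset.singleton_inter_of_notMem hiW
    rw [e, f0] at s
    have u := f2 i
    rw [hA_, Finset.card_singleton]
    push_cast
    omega
  have c_one' : ∀ i ∈ univ \ W, h ((univ \ W).erase i) ≤ 1 := by
    intro i hi
    rw [hA_]
    have m : f ((univ \ W).erase i ∪ W) ≤ f univ := hmono (Finset.subset_univ _)
    have c := cardD (univ \ W) (Finset.Subset.refl _)
    rw [Finset.sdiff_union_of_subset (Finset.subset_univ W)] at c
    rw [Finset.univ_inter] at tightAll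
    have c3 := Finset.card_erase_add_one hi
    omega
  have c_two : ∀ A, A ⊆ univ \ W → h A ≤ 2 := by
    rcases hex W hWW with h5 | h5
    · have hcard : (univ \ W : Finset (Fin n)).card ≤ 5 := by
        have := Finset.card_le_univ (univ \ W : Finset (Fin n))
        rw [Fintype.card_fin] at this
        omega
      exact two_of_small c_emp c_top c_sub c_pos c_one c_one' hcard
    · intro A hA
      have u := h5 A hA
      rw [hA_]
      omega
  have hcore : Core (univ \ W) h :=
    { emp := c_emp, top := c_top, sub := c_sub, pos := c_pos, one := c_one, one' := c_one',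
      two := c_two }
  obtain ⟨y, ya, yb, yv⟩ := core_res (univ \ W) h hcore
  have ya' : ∀ A : Finset (Fin n), A ⊆ univ \ W →
      ((∑ i ∈ A, y i : ℤ) : ℝ) ≤ (f (A ∪ W) : ℝ) - 2 * (W.card : ℝ) - (A.card : ℝ) := by
    intro A hA
    have u := ya A hA
    rw [hA_] at u
    exact_mod_cast u
  have yb' : ∀ A : Finset (Fin n), A ⊆ univ \ W →
      -((∑ i ∈ A, y i : ℤ) : ℝ) ≤ (f (A ∪ W) : ℝ) - 2 * (W.card : ℝ) - (A.card : ℝ) := by
    intro A hA
    have u := yb A hA
    rw [hA_] at u
    exact_mod_cast u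
  have hsumv : ∀ A : Finset (Fin n), ∑ j ∈ A, (if j ∈ W then (2 : ℝ) else 1 + (y j : ℝ))
      = 2 * ((A ∩ W).card : ℝ) + ((A \ W).card : ℝ) + ((∑ j ∈ A \ W, y j : ℤ) : ℝ) := by
    intro A
    rw [Finset.sum_ite, Finset.filter_mem_eq_inter]
    have e : A.filter (fun j => j ∉ W) = A \ W := by ext j; simp
    rw [e, Finset.sum_const, Finset.sum_add_distrib, Finset.sum_const]
    push_cast
    simp only [nsmul_eq_mul]
    ring
  have hsum2v : ∀ A : Finset (Fin n), ∑ j ∈ A, (2 - (if j ∈ W then (2 : ℝ) else 1 + (y j : ℝ)))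
      = ((A \ W).card : ℝ) - ((∑ j ∈ A \ W, y j : ℤ) : ℝ) := by
    intro A
    rw [Finset.sum_sub_distrib, hsumv, Finset.sum_const]
    have c : ((A ∩ W).card : ℝ) + ((A \ W).card : ℝ) = (A.card : ℝ) := by
      exact_mod_cast Finset.card_inter_add_card_sdiff A W
    simp only [nsmul_eq_mul]
    linarith
  have hbound : ∀ A : Finset (Fin n), (f (A \ W ∪ W) : ℝ) - 2 * (W.card : ℝ)
      ≤ (f A : ℝ) - 2 * ((A ∩ W).card : ℝ) := by
    intro A
    have e : A \ W ∪ W = A ∪ W := by ext j; simp only [mem_union, mem_sdiff]; grind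
    rw [e]
    have s := hsub A W
    have u := hW (A ∩ W)
    have e2 : A ∩ W ∩ W = A ∩ W := by ext j; simp only [mem_inter]; grind
    rw [e2] at u
    have : f (A ∪ W) - 2 * (W.card : ℤ) ≤ f A - 2 * ((A ∩ W).card : ℤ) := by omega
    exact_mod_cast this
  have hAW : ∀ A : Finset (Fin n), A \ W ⊆ univ \ W := fun A =>
    Finset.sdiff_subset_sdiff (Finset.subset_univ A) (Finset.Subset.refl _)
  have hyi : ∀ i, i ∉ W → -1 ≤ y i ∧ y i ≤ 1 := by
    intro i hi
    have hi' : i ∈ univ \ W := by simp [hi]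
    have hs : ({i} : Finset (Fin n)) ⊆ univ \ W := Finset.singleton_subset_iff.mpr hi'
    have u1 := ya {i} hs
    have u2 := yb {i} hs
    have u3 := c_one i hi'
    simp only [Finset.sum_singleton] at u1 u2
    constructor <;> omega
  have hP : (∀ i, 0 ≤ (fun j => if j ∈ W then (2 : ℝ) else 1 + (y j : ℝ)) i) ∧
      ∀ A : Finset (Fin n), ∑ i ∈ A, (fun j => if j ∈ W then (2 : ℝ) else 1 + (y j : ℝ)) i
        ≤ (f A : ℝ) := by
    constructor
    · intro i
      by_cases hi : i ∈ W
      · simp [hi]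
      · have u := (hyi i hi).1
        have u' : (-1 : ℝ) ≤ (y i : ℝ) := by exact_mod_cast u
        simp only [hi, if_false]
        linarith
    · intro A
      rw [hsumv]
      have u1 := ya' (A \ W) (hAW A)
      have u2 := hbound A
      linarith
  refine ⟨fun j => if j ∈ W then (2 : ℝ) else 1 + (y j : ℝ), ?_, ?_, ?_⟩
  · apply extreme_of_tight f _ hP
    intro i
    by_cases hi : i ∈ W
    · refine ⟨∅, Finset.notMem_empty _, by simp [f0], ?_⟩
      have u1 := hW {i}
      have u2 := f2 i
      have e : ({i} : Finset (Fin n)) ∩ W = {i} := by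
        rw [Finset.singleton_inter_of_mem hi]
      rw [e] at u1
      simp only [Finset.card_singleton] at u1
      have e2 : (insert i (∅ : Finset (Fin n))) = {i} := rfl
      have u3 : f {i} = 2 := by omega
      rw [e2, u3]
      simp [hi]
    · have hi' : i ∈ univ \ W := by simp [hi]
      obtain ⟨A, hA, hiA, t1, t2⟩ := yv i hi'
      have hA' : insert i A ⊆ univ \ W := Finset.insert_subset hi' hA
      have gen : ∀ B : Finset (Fin n), B ⊆ univ \ W →
          ∑ j ∈ B, y j = f (B ∪ W) - 2 * (W.card : ℤ) - (B.card : ℤ) →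
          ∑ j ∈ B ∪ W, (fun j => if j ∈ W then (2 : ℝ) else 1 + (y j : ℝ)) j
            = (f (B ∪ W) : ℝ) := by
        intro B hB tB
        have hdis : ∀ j ∈ B, j ∉ W := fun j hj => (mem_sdiff.mp (hB hj)).2
        rw [hsumv]
        have e1 : (B ∪ W) ∩ W = W := by ext j; simp only [mem_union, mem_inter]; grind
        have e2 : (B ∪ W) \ W = B := by ext j; simp only [mem_union, mem_sdiff]; grind
        rw [e1, e2, tB]
        push_cast
        ring
      rw [hA_] at t1 t2
      refine ⟨A ∪ W, ?_, gen A hA t1, ?_⟩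
      · simp only [mem_union]; grind
      · rw [← Finset.insert_union]
        exact gen (insert i A) hA' t2
  · intro i
    by_cases hi : i ∈ W
    · simp [hi]
    · have u := (hyi i hi).2
      have u' : (y i : ℝ) ≤ 1 := by exact_mod_cast u
      simp only [hi, if_false]
      linarith
  · intro A
    have hs := hsum2v A
    have u1 := yb' (A \ W) (hAW A)
    have u2 := hbound A
    have u3 : (0 : ℝ) ≤ ((A ∩ W).card : ℝ) := Nat.cast_nonneg _
    calc ∑ i ∈ A, (2 - (fun j => if j ∈ W then (2 : ℝ) else 1 + (y j : ℝ)) i)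
        = ((A \ W).card : ℝ) - ((∑ j ∈ A \ W, y j : ℤ) : ℝ) := hs
      _ ≤ (f A : ℝ) := by linarith

theorem frank_final (f : Finset (Fin n) → ℤ) (f0 : f ∅ = 0) (hmono : Monotone f)
    (hsub : ∀ A B : Finset (Fin n), f (A ∪ B) + f (A ∩ B) ≤ f A + f B)
    (f2 : ∀ e : Fin n, f {e} ≤ 2) (hone : ∀ A : Finset (Fin n), (A.card : ℤ) ≤ f A)
    (hex : n ≤ 5 ∨ ∃ u : Fin n → ℤ, (∀ i, 1 ≤ u i) ∧
      ∀ A : Finset (Fin n), ∑ i ∈ A, u i ≤ f A ∧ f A ≤ ∑ i ∈ A, u i + 2) :
    ∃ v ∈ Set.extremePoints ℝ
        {x : Fin n → ℝ | (∀ i, 0 ≤ x i) ∧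
          ∀ A : Finset (Fin n), ∑ i ∈ A, x i ≤ (f A : ℝ)},
      (∀ i, 0 ≤ 2 - v i) ∧
        ∀ A : Finset (Fin n), ∑ i ∈ A, (2 - v i) ≤ (f A : ℝ) := by
  classical
  rcases hex with h5 | ⟨u, u1, hu⟩
  · exact frank_of_two f f0 hmono hsub f2 ∅ (fun A => by simpa using hone A)
      (fun W _ => Or.inl h5)
  · have u2 : ∀ i, u i ≤ 2 := by
      intro i
      have a1 := (hu {i}).1
      have a2 := f2 i
      rw [Finset.sum_singleton] at a1
      omega
    have cnt : ∀ A : Finset (Fin n), ∑ i ∈ A, u i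
        = (A.card : ℤ) + ((A ∩ univ.filter (fun i => u i = 2)).card : ℤ) := by
      intro A
      have e : A ∩ univ.filter (fun i => u i = 2) = A.filter (fun i => u i = 2) := by
        ext j; simp
      rw [e, Finset.card_filter, Finset.card_eq_sum_ones]
      push_cast
      rw [← Finset.sum_add_distrib]
      apply Finset.sum_congr rfl
      intro i _
      have a1 := u1 i
      have a2 := u2 i
      split_ifs <;> omega
    refine frank_of_two f f0 hmono hsub f2 (univ.filter (fun i => u i = 2)) ?_ ?_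
    · intro A
      rw [← cnt]
      exact (hu A).1
    · intro W hWW
      right
      intro A hA
      have a1 := (hu (A ∪ W)).2
      rw [cnt] at a1
      have c : (A ∪ W).card = A.card + W.card := by
        apply Finset.card_union_of_disjoint
        exact Finset.disjoint_of_subset_left hA Finset.sdiff_disjoint
      have c2 : ((A ∪ W) ∩ univ.filter (fun i => u i = 2)).card ≤ W.card := by
        apply Finset.card_le_card
        exact Finset.inter_subset_right.trans hWW
      omega

end Pool.Agent.Run7.h447.FR
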