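import Pool.Agent.Run7.h447.FR.Core

set_option autoImplicit false

namespace Pool.Agent.Run7.h447.FR

open Finset

variable {α : Type*} [DecidableEq α]

theorem trans_or_good {V : Finset α} {h : Finset α → ℤ} (hc : Core V h)
    (h1 : ∀ A, A ⊆ V → A ≠ ∅ → A ≠ V → 1 ≤ h A) {x y z q : α} (hx : x ∈ V) (hy : y ∈ V)
    (hz : z ∈ V) (hq : q ∈ V) (hxy : x ≠ y) (hyz : y ≠ z) (hxz : x ≠ z) (hqx : q ≠ x)
    (hqy : q ≠ y) (hqz : q ≠ z) (e1 : h {x, y} ≤ 1) (e2 : h {y, z} ≤ 1) :
    h {x, z} ≤ 1 ∨ Good V h y q := by
  have sxy : ({x, y} : Finset α) ⊆ V := by intro j hj; simp at hj; grind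
  have syz : ({y, z} : Finset α) ⊆ V := by intro j hj; simp at hj; grind
  have sxyz : ({x, y, z} : Finset α) ⊆ V := by intro j hj; simp at hj; grind
  have s1 := hc.sub {x, y} {y, z} sxy syz
  have eU : ({x, y} : Finset α) ∪ {y, z} = {x, y, z} := by
    ext j; simp only [mem_union, mem_insert, mem_singleton]; grind
  have eI : ({x, y} : Finset α) ∩ {y, z} = {y} := by
    ext j; simp only [mem_inter, mem_insert, mem_singleton]; grind
  rw [eU, eI] at s1
  have s2 : 1 ≤ h {y} := h1 {y} (by simpa using hy) (by simp)
    (fun h => by rw [← h] at hx; simp at hx; exact hxy hx)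
  have s3 : h {x, y, z} ≤ 1 := by omega
  by_cases hxz' : h {x, z} ≤ 1
  · exact Or.inl hxz'
  · right
    intro i hi hiy hiq
    by_cases hix : i = x
    · subst hix
      exact ⟨{y}, by simpa using hy, by simp, by simp [hqy], by simp [hiy], hc.one y hy, e1⟩
    · by_cases hiz : i = z
      · subst hiz
        refine ⟨{y}, by simpa using hy, by simp, by simp [hqy], by simp [hiy], hc.one y hy, ?_⟩
        rw [show insert i ({y} : Finset α) = {y, i} from Finset.pair_comm _ _]
        exact e2
      · refine ⟨{x, y, z}, sxyz, by simp, by simp [hqx, hqy, hqz], by simp [hix, hiy, hiz], s3, ?_⟩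
        have sxzi : ({x, z, i} : Finset α) ⊆ V := by intro j hj; simp at hj; grind
        have s4 := hc.sub {x, y, z} {x, z, i} sxyz sxzi
        have eU' : ({x, y, z} : Finset α) ∪ {x, z, i} = insert i {x, y, z} := by
          ext j; simp only [mem_union, mem_insert, mem_singleton]; grind
        have eI' : ({x, y, z} : Finset α) ∩ {x, z, i} = {x, z} := by
          ext j; simp only [mem_inter, mem_insert, mem_singleton]; grind
        rw [eU', eI'] at s4
        have s5 := hc.two _ sxzi
        omega

theorem dual_core {V : Finset α} {h : Finset α → ℤ} (hc : Core V h) :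
    Core V (fun A => h (V \ A)) where
  emp := by simp [hc.top]
  top := by simp [hc.emp]
  sub A B hA hB := by
    have s := hc.sub (V \ A) (V \ B) sdiff_subset sdiff_subset
    have e1 : (V \ A) ∪ (V \ B) = V \ (A ∩ B) := by
      ext j; simp only [mem_union, mem_sdiff, mem_inter]; grind
    have e2 : (V \ A) ∩ (V \ B) = V \ (A ∪ B) := by
      ext j; simp only [mem_union, mem_sdiff, mem_inter]; grind
    rw [e1, e2] at s
    show h (V \ (A ∪ B)) + h (V \ (A ∩ B)) ≤ h (V \ A) + h (V \ B)
    omega
  pos A _ := hc.pos _ sdiff_subset
  one i hi := by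
    have : V \ {i} = V.erase i := (erase_eq V i).symm
    show h (V \ {i}) ≤ 1
    rw [this]; exact hc.one' i hi
  one' i hi := by
    have : V \ V.erase i = {i} := by
      ext j; simp only [mem_sdiff, mem_erase, mem_singleton]; grind
    show h (V \ V.erase i) ≤ 1
    rw [this]; exact hc.one i hi
  two A _ := hc.two _ sdiff_subset

theorem dual_h1 {V : Finset α} {h : Finset α → ℤ}
    (h1 : ∀ A, A ⊆ V → A ≠ ∅ → A ≠ V → 1 ≤ h A) :
    ∀ A, A ⊆ V → A ≠ ∅ → A ≠ V → 1 ≤ (fun A => h (V \ A)) A := by
  intro A hA hA0 hA1
  refine h1 _ sdiff_subset ?_ ?_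
  · intro e
    exact hA1 (Subset.antisymm hA (sdiff_eq_empty_iff_subset.mp e))
  · intro e
    apply hA0
    have : Disjoint V A := by rw [← Finset.sdiff_eq_self_iff_disjoint]; exact e
    exact disjoint_self_iff_empty A |>.mp (this.mono_left hA)

theorem dual_good {V : Finset α} {h : Finset α → ℤ} {y q : α} (hq : q ∈ V)
    (hqy : q ≠ y) (hg : Good V (fun A => h (V \ A)) y q) : Good V h q y := by
  intro i hi hiq hiy
  obtain ⟨A, hA, hyA, hqA, hiA, a1, a2⟩ := hg i hi hiy hiq
  refine ⟨V \ insert i A, sdiff_subset, ?_, ?_, ?_, a2, ?_⟩
  · simp only [mem_sdiff, mem_insert]; grind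
  · simp only [mem_sdiff, mem_insert]; grind
  · simp only [mem_sdiff, mem_insert]; grind
  · have e : insert i (V \ insert i A) = V \ A := by
      ext j; simp only [mem_sdiff, mem_insert]; grind
    rw [e]; exact a1

theorem block {V : Finset α} {h : Finset α → ℤ} (hc : Core V h)
    (h1 : ∀ A, A ⊆ V → A ≠ ∅ → A ≠ V → 1 ≤ h A) : Res V h := by
  by_cases hcard : V.card ≤ 1
  · refine ⟨fun _ => 0, ?_, ?_, ?_⟩
    · intro A hA; simpa using hc.pos A hA
    · intro A hA; simpa using hc.pos A hA
    · intro i hi
      refine ⟨∅, empty_subset _, notMem_empty _, by simp [hc.emp], ?_⟩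
      have e : V = insert i ∅ := by
        have : V = {i} := Finset.eq_singleton_iff_unique_mem.mpr
          ⟨hi, fun j hj => Finset.card_le_one.mp hcard j hj i hi⟩
        rw [this]; rfl
      rw [← e, hc.top]; simp
  · by_cases hg : ∃ p ∈ V, ∃ q ∈ V, p ≠ q ∧ Good V h p q
    · obtain ⟨p, hp, q, hq, hpq, hG⟩ := hg
      exact good_res hc h1 hp hq hpq hG
    · have ng : ∀ p ∈ V, ∀ q ∈ V, p ≠ q → ∃ i ∈ V, i ≠ p ∧ i ≠ q ∧
          ∀ A, A ⊆ V → p ∈ A → q ∉ A → i ∉ A → h A ≤ 1 → ¬ h (insert i A) ≤ 1 := by
        intro p hp q hq hpq
        by_contra hcon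
        apply hg
        refine ⟨p, hp, q, hq, hpq, ?_⟩
        intro i hi hip hiq
        by_contra hcon2
        apply hcon
        refine ⟨i, hi, hip, hiq, ?_⟩
        intro A hA hpA hqA hiA hA1 hA2
        exact hcon2 ⟨A, hA, hpA, hqA, hiA, hA1, hA2⟩
      have card4 : 4 ≤ V.card := by
        obtain ⟨p, hp, q, hq, hpq⟩ := Finset.one_lt_card.mp (by omega : 1 < V.card)
        obtain ⟨i, hi, hip, hiq, hall⟩ := ng p hp q hq hpq
        by_contra hlt
        have hsub : ({p, q, i} : Finset α) ⊆ V := by intro j hj; simp at hj; grind
        have hc3 : ({p, q, i} : Finset α).card = 3 :=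
          Finset.card_eq_three.mpr ⟨p, q, i, hpq, Ne.symm hip, Ne.symm hiq, rfl⟩
        have hVe : ({p, q, i} : Finset α) = V := Finset.eq_of_subset_of_card_le hsub (by omega)
        refine hall {p} (by simpa using hp) (by simp) (by simp [Ne.symm hpq]) (by simp [hip])
          (hc.one p hp) ?_
        have e : insert i ({p} : Finset α) = V.erase q := by
          rw [← hVe]; ext j; simp only [mem_insert, mem_singleton, mem_erase]; grind
        rw [e]; exact hc.one' q hq
      have fourth : ∀ x y z : α, ∃ w ∈ V, w ≠ x ∧ w ≠ y ∧ w ≠ z := by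
        intro x y z
        have hc : ({x, y, z} : Finset α).card < V.card :=
          lt_of_le_of_lt Finset.card_le_three (by omega)
        obtain ⟨w, hw, hn⟩ := Finset.exists_mem_notMem_of_card_lt_card hc
        refine ⟨w, hw, ?_, ?_, ?_⟩ <;> (intro h; apply hn; simp [h])
      have rt : ∀ x ∈ V, ∀ y ∈ V, ∀ z ∈ V, h {x, y} ≤ 1 → h {y, z} ≤ 1 → h {x, z} ≤ 1 := by
        intro x hx y hy z hz e1 e2
        by_cases hxy : x = y
        · rw [hxy]; exact e2
        by_cases hyz : y = z
        · rw [← hyz]; exact e1
        by_cases hxz : x = z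
        · rw [hxz]; simpa using hc.one z hz
        obtain ⟨q, hq, hqx, hqy, hqz⟩ := fourth x y z
        rcases trans_or_good hc h1 hx hy hz hq hxy hyz hxz hqx hqy hqz e1 e2 with g | g
        · exact g
        · exact absurd ⟨y, hy, q, hq, Ne.symm hqy, g⟩ hg
      have st : ∀ x ∈ V, ∀ y ∈ V, ∀ z ∈ V, h (V \ {x, y}) ≤ 1 → h (V \ {y, z}) ≤ 1 →
          h (V \ {x, z}) ≤ 1 := by
        intro x hx y hy z hz e1 e2
        by_cases hxy : x = y
        · rw [hxy]; exact e2
        by_cases hyz : y = z
        · rw [← hyz]; exact e1
        by_cases hxz : x = z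
        · rw [hxz]; simpa [erase_eq] using hc.one' z hz
        obtain ⟨q, hq, hqx, hqy, hqz⟩ := fourth x y z
        rcases trans_or_good (dual_core hc) (dual_h1 h1) hx hy hz hq hxy hyz hxz hqx hqy hqz
          e1 e2 with g | g
        · exact g
        · exact absurd ⟨q, hq, y, hy, hqy, dual_good hq hqy g⟩ hg
      obtain ⟨a, ha, b, hb, c, hcV, d, hd, hab, hac, had, hbc, hbd, hcd, e1, e2, e3, e4⟩ :=
        twoEquiv V (fun x y => h {x, y} ≤ 1) (fun x y => h (V \ {x, y}) ≤ 1)
          (fun x hx => by simpa using hc.one x hx)
          (fun x _ y _ hxy => by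
            show h {y, x} ≤ 1
            rw [Finset.pair_comm]; exact hxy)
          rt
          (fun x hx => by simpa [erase_eq] using hc.one' x hx)
          (fun x _ y _ hxy => by
            show h (V \ {y, x}) ≤ 1
            rw [Finset.pair_comm]; exact hxy)
          st card4
          (by
            intro p hp q hq hpq
            obtain ⟨i, hi, hip, hiq, hall⟩ := ng p hp q hq hpq
            refine ⟨i, hi, hip, hiq, ?_, ?_⟩
            · intro hle
              refine hall {p} (by simpa using hp) (by simp) (by simp [Ne.symm hpq])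
                (by simp [hip]) (hc.one p hp) ?_
              rw [show insert i ({p} : Finset α) = {p, i} from Finset.pair_comm _ _]
              exact hle
            · intro hle
              refine hall (V \ {q, i}) sdiff_subset ?_ (by simp) (by simp) hle ?_
              · simp only [mem_sdiff, mem_insert, mem_singleton]; grind
              · have e : insert i (V \ {q, i}) = V.erase q := by
                  ext j; simp only [mem_sdiff, mem_insert, mem_singleton, mem_erase]; grind
                rw [e]; exact hc.one' q hq)
      exact match_res hc h1 ha hb hcV hd hab hac had hbc hbd hcd (by omega) (by omega) (by omega)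
        (by omega)

theorem core_res : ∀ (V : Finset α) (h : Finset α → ℤ), Core V h → Res V h := by
  intro V
  induction V using Finset.strongInduction with
  | H V ih =>
    intro h hc
    by_cases hz : ∃ T, T ⊆ V ∧ T ≠ ∅ ∧ T ≠ V ∧ h T = 0
    · obtain ⟨T, hTV, hT0, hT1, hT⟩ := hz
      have hT' : T ⊂ V := Finset.ssubset_iff_subset_ne.mpr ⟨hTV, hT1⟩
      have hS' : V \ T ⊂ V := Finset.sdiff_ssubset hTV (Finset.nonempty_iff_ne_empty.mpr hT0)
      have c1 : Core T h :=
        { emp := hc.emp
          top := hT
          sub := fun A B hA hB => hc.sub A B (hA.trans hTV) (hB.trans hTV)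
          pos := fun A hA => hc.pos A (hA.trans hTV)
          one := fun i hi => hc.one i (hTV hi)
          one' := by
            intro i hi
            have s := hc.sub T (V.erase i) hTV (erase_subset _ _)
            have e1 : T ∪ V.erase i = V := by
              ext j; simp only [mem_union, mem_erase]
              constructor
              · rintro (hj | hj)
                · exact hTV hj
                · exact hj.2
              · intro hj
                by_cases hji : j = i
                · left; rw [hji]; exact hi
                · right; exact ⟨hji, hj⟩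
            have e2 : T ∩ V.erase i = T.erase i := by
              ext j; simp only [mem_inter, mem_erase]
              constructor
              · rintro ⟨h1, h2, h3⟩; exact ⟨h2, h1⟩
              · rintro ⟨h1, h2⟩; exact ⟨h2, h1, hTV h2⟩
            rw [e1, e2, hT, hc.top] at s
            have := hc.one' i (hTV hi)
            omega
          two := fun A hA => hc.two A (hA.trans hTV) }
      have c2 : Core (V \ T) (fun A => h (A ∪ T)) :=
        { emp := by simp [hT]
          top := by
            show h (V \ T ∪ T) = 0
            rw [Finset.sdiff_union_of_subset hTV]; exact hc.top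
          sub := by
            intro A B hA hB
            have hA' : A ∪ T ⊆ V := union_subset (hA.trans sdiff_subset) hTV
            have hB' : B ∪ T ⊆ V := union_subset (hB.trans sdiff_subset) hTV
            have s := hc.sub _ _ hA' hB'
            have e1 : A ∪ T ∪ (B ∪ T) = A ∪ B ∪ T := by
              ext j; simp only [mem_union]; grind
            have e2 : (A ∪ T) ∩ (B ∪ T) = A ∩ B ∪ T := by
              ext j; simp only [mem_union, mem_inter]; grind
            rw [e1, e2] at s
            exact s
          pos := fun A hA => hc.pos _ (union_subset (hA.trans sdiff_subset) hTV)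
          one := by
            intro i hi
            have hiV : i ∈ V := (mem_sdiff.mp hi).1
            have hiT : i ∉ T := (mem_sdiff.mp hi).2
            have s := hc.sub {i} T (by simpa using hiV) hTV
            have e : ({i} : Finset α) ∩ T = ∅ := by
              rw [← Finset.disjoint_iff_inter_eq_empty]; simpa using hiT
            rw [e, hc.emp, hT] at s
            have := hc.one i hiV
            show h ({i} ∪ T) ≤ 1
            omega
          one' := by
            intro i hi
            have hiV : i ∈ V := (mem_sdiff.mp hi).1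
            have hiT : i ∉ T := (mem_sdiff.mp hi).2
            show h ((V \ T).erase i ∪ T) ≤ 1
            have e : (V \ T).erase i ∪ T = V.erase i := by
              ext j; simp only [mem_union, mem_erase, mem_sdiff]
              constructor
              · rintro (⟨h1, h2, h3⟩ | h1)
                · exact ⟨h1, h2⟩
                · exact ⟨fun e => hiT (e ▸ h1), hTV h1⟩
              · rintro ⟨h1, h2⟩
                by_cases hj : j ∈ T
                · exact Or.inr hj
                · exact Or.inl ⟨h1, h2, hj⟩
            rw [e]; exact hc.one' i hiV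
          two := fun A hA => hc.two _ (union_subset (hA.trans sdiff_subset) hTV) }
      obtain ⟨y1, a1, b1, v1⟩ := ih T hT' h c1
      obtain ⟨y2, a2, b2, v2⟩ := ih (V \ T) hS' _ c2
      have hy1T : ∑ j ∈ T, y1 j = 0 := by
        have u1 := a1 T (Subset.refl _)
        have u2 := b1 T (Subset.refl _)
        rw [hT] at u1 u2
        omega
      have hsum : ∀ A : Finset α, ∑ j ∈ A, (if j ∈ T then y1 j else y2 j)
          = ∑ j ∈ A ∩ T, y1 j + ∑ j ∈ A \ T, y2 j := by
        intro A
        rw [Finset.sum_ite, Finset.filter_mem_eq_inter]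
        congr 1
        apply Finset.sum_congr _ (fun _ _ => rfl)
        ext j; simp
      refine ⟨fun j => if j ∈ T then y1 j else y2 j, ?_, ?_, ?_⟩
      · intro A hA
        rw [hsum]
        have t1 := a1 (A ∩ T) inter_subset_right
        have t2 := a2 (A \ T) (sdiff_subset_sdiff hA (Subset.refl _))
        have s := hc.sub A T hA hTV
        have e : A \ T ∪ T = A ∪ T := by ext j; simp only [mem_union, mem_sdiff]; grind
        simp only [e] at t2
        omega
      · intro A hA
        rw [hsum]
        have t1 := b1 (A ∩ T) inter_subset_right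
        have t2 := b2 (A \ T) (sdiff_subset_sdiff hA (Subset.refl _))
        have s := hc.sub A T hA hTV
        have e : A \ T ∪ T = A ∪ T := by ext j; simp only [mem_union, mem_sdiff]; grind
        simp only [e] at t2
        omega
      · intro i hi
        by_cases hiT : i ∈ T
        · obtain ⟨A, hA, hiA, t1, t2⟩ := v1 i hiT
          refine ⟨A, hA.trans hTV, hiA, ?_, ?_⟩
          · rw [hsum, inter_eq_left.mpr hA, sdiff_eq_empty_iff_subset.mpr hA]
            simpa using t1
          · have hA' : insert i A ⊆ T := insert_subset hiT hA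
            rw [hsum, inter_eq_left.mpr hA', sdiff_eq_empty_iff_subset.mpr hA']
            simpa using t2
        · obtain ⟨A, hA, hiA, t1, t2⟩ := v2 i (mem_sdiff.mpr ⟨hi, hiT⟩)
          have hAV : A ⊆ V := hA.trans sdiff_subset
          have hdis : ∀ j ∈ A, j ∉ T := fun j hj => (mem_sdiff.mp (hA hj)).2
          refine ⟨A ∪ T, union_subset hAV hTV, ?_, ?_, ?_⟩
          · simp only [mem_union]; grind
          · rw [hsum]
            have e1 : (A ∪ T) ∩ T = T := by ext j; simp only [mem_union, mem_inter]; grind
            have e2 : (A ∪ T) \ T = A := by ext j; simp only [mem_union, mem_sdiff]; grind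
            rw [e1, e2, hy1T, zero_add]
            exact t1
          · rw [hsum]
            have e1 : (insert i (A ∪ T)) ∩ T = T := by
              ext j; simp only [mem_union, mem_inter, mem_insert]; grind
            have e2 : (insert i (A ∪ T)) \ T = insert i A := by
              ext j; simp only [mem_union, mem_sdiff, mem_insert]; grind
            have e3 : insert i (A ∪ T) = insert i A ∪ T := by
              ext j; simp only [mem_union, mem_insert]; grind
            rw [e1, e2, hy1T, zero_add, e3]
            exact t2
    · refine block hc ?_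
      intro A hA hA0 hA1
      have := hc.pos A hA
      by_contra hlt
      exact hz ⟨A, hA, hA0, hA1, by omega⟩

end Pool.Agent.Run7.h447.FR
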