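import Mathlib

set_option autoImplicit false

namespace Pool.Agent.Run7.h447.FR

/-- Two equivalence relations on a set with at least four elements such that for all
`p ≠ q` some `i ∉ {p, q}` is not `r`-equivalent to `p` and not `s`-equivalent to `q`: there are
two disjoint pairs which both relations separate. -/
theorem twoEquiv {α : Type*} [DecidableEq α] (V : Finset α) (r s : α → α → Prop)
    (rr : ∀ x ∈ V, r x x) (rs : ∀ x ∈ V, ∀ y ∈ V, r x y → r y x)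
    (rt : ∀ x ∈ V, ∀ y ∈ V, ∀ z ∈ V, r x y → r y z → r x z)
    (sr : ∀ x ∈ V, s x x) (ss : ∀ x ∈ V, ∀ y ∈ V, s x y → s y x)
    (st : ∀ x ∈ V, ∀ y ∈ V, ∀ z ∈ V, s x y → s y z → s x z)
    (hV : 4 ≤ V.card)
    (ng : ∀ p ∈ V, ∀ q ∈ V, p ≠ q → ∃ i ∈ V, i ≠ p ∧ i ≠ q ∧ ¬ r p i ∧ ¬ s q i) :
    ∃ a ∈ V, ∃ b ∈ V, ∃ c ∈ V, ∃ d ∈ V, a ≠ b ∧ a ≠ c ∧ a ≠ d ∧ b ≠ c ∧ b ≠ d ∧ c ≠ d ∧
      ¬ r a b ∧ ¬ s a b ∧ ¬ r c d ∧ ¬ s c d := by
  have fourth : ∀ x y z : α, ∃ w ∈ V, w ≠ x ∧ w ≠ y ∧ w ≠ z := by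
    intro x y z
    have hc : ({x, y, z} : Finset α).card < V.card :=
      lt_of_le_of_lt Finset.card_le_three (by omega)
    obtain ⟨w, hw, hn⟩ := Finset.exists_mem_notMem_of_card_lt_card hc
    refine ⟨w, hw, ?_, ?_, ?_⟩ <;> (intro h; apply hn; simp [h])
  -- every element has a neighbour
  have nb : ∀ x ∈ V, ∃ y ∈ V, y ≠ x ∧ ¬ r x y ∧ ¬ s x y := by
    intro x hx
    by_cases hq : ∃ q ∈ V, q ≠ x ∧ s q x
    · obtain ⟨q, hqV, hqx, hsq⟩ := hq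
      obtain ⟨i, hi, hip, hiq, h1, h2⟩ := ng x hx q hqV (Ne.symm hqx)
      exact ⟨i, hi, hip, h1, fun h => h2 (st q hqV x hx i hi hsq h)⟩
    · by_cases hp : ∃ p ∈ V, p ≠ x ∧ r p x
      · obtain ⟨p, hpV, hpx, hrp⟩ := hp
        obtain ⟨i, hi, hip, hiq, h1, h2⟩ := ng p hpV x hx hpx
        exact ⟨i, hi, hiq, fun h => h1 (rt p hpV x hx i hi hrp h), h2⟩
      · obtain ⟨w, hw, hwx, -, -⟩ := fourth x x x
        exact ⟨w, hw, hwx, fun h => hp ⟨w, hw, hwx, rs x hx w hw h⟩,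
          fun h => hq ⟨w, hw, hwx, ss x hx w hw h⟩⟩
  by_contra hno
  have meet : ∀ a ∈ V, ∀ b ∈ V, ∀ c ∈ V, ∀ d ∈ V, ¬ r a b → ¬ s a b → ¬ r c d → ¬ s c d →
      a = c ∨ a = d ∨ b = c ∨ b = d := by
    intro a ha b hb c hc d hd h1 h2 h3 h4
    by_contra hcon
    push Not at hcon
    have hab : a ≠ b := by rintro rfl; exact h1 (rr a ha)
    have hcd : c ≠ d := by rintro rfl; exact h3 (rr c hc)
    exact hno ⟨a, ha, b, hb, c, hc, d, hd, hab, hcon.1, hcon.2.1, hcon.2.2.1, hcon.2.2.2, hcd,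
      h1, h2, h3, h4⟩
  -- the pivot: edges {a,b}, {a,x}
  have pivot : ∃ a ∈ V, ∃ b ∈ V, ∃ x ∈ V, a ≠ b ∧ a ≠ x ∧ b ≠ x ∧ ¬ r a b ∧ ¬ s a b ∧
      ¬ r a x ∧ ¬ s a x := by
    obtain ⟨x0, hx0, -, -, -⟩ : ∃ w ∈ V, True ∧ True ∧ True := by
      have : V.Nonempty := Finset.card_pos.mp (by omega)
      obtain ⟨w, hw⟩ := this
      exact ⟨w, hw, trivial, trivial, trivial⟩
    obtain ⟨y0, hy0, hyx, h1, h2⟩ := nb x0 hx0
    obtain ⟨x1, hx1, h10, h11, -⟩ := fourth x0 y0 y0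
    obtain ⟨y1, hy1, hyx1, h3, h4⟩ := nb x1 hx1
    rcases meet x0 hx0 y0 hy0 x1 hx1 y1 hy1 h1 h2 h3 h4 with h | h | h | h
    · exact absurd h.symm h10
    · subst h
      exact ⟨x0, hx0, y0, hy0, x1, hx1, Ne.symm hyx, Ne.symm h10, Ne.symm h11, h1, h2,
        fun h => h3 (rs _ hx0 _ hx1 h), fun h => h4 (ss _ hx0 _ hx1 h)⟩
    · exact absurd h.symm h11
    · subst h
      exact ⟨y0, hy0, x0, hx0, x1, hx1, hyx, Ne.symm h11, Ne.symm h10,
        fun h => h1 (rs _ hy0 _ hx0 h), fun h => h2 (ss _ hy0 _ hx0 h),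
        fun h => h3 (rs _ hy0 _ hx1 h), fun h => h4 (ss _ hy0 _ hx1 h)⟩
  obtain ⟨a, ha, b, hb, x, hx, hab, hax, hbx, e1, e2, e3, e4⟩ := pivot
  obtain ⟨w, hw, hwa, hwb, hwx⟩ := fourth a b x
  obtain ⟨u, hu, huw, f1, f2⟩ := nb w hw
  have hua : u = a := by
    rcases meet a ha b hb w hw u hu e1 e2 f1 f2 with h | h | h | h
    · exact absurd h.symm hwa
    · exact h.symm
    · exact absurd h.symm hwb
    · rcases meet a ha x hx w hw u hu e3 e4 f1 f2 with h' | h' | h' | h'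
      · exact absurd h'.symm hwa
      · exact h'.symm
      · exact absurd h'.symm hwx
      · exact absurd (h.trans h'.symm) hbx
  subst hua
  have star : ∀ c ∈ V, ∀ d ∈ V, c ≠ u → d ≠ u → r c d ∨ s c d := by
    intro c hc d hd hcu hdu
    by_contra hcon
    push Not at hcon
    have m1 := meet u ha b hb c hc d hd e1 e2 hcon.1 hcon.2
    have m2 := meet u ha x hx c hc d hd e3 e4 hcon.1 hcon.2
    have m3 := meet w hw u ha c hc d hd f1 f2 hcon.1 hcon.2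
    grind
  by_cases all : ∀ c ∈ V, ∀ d ∈ V, c ≠ u → d ≠ u → r c d
  · obtain ⟨i, hi, hib, hiu, h1, -⟩ := ng b hb u ha (Ne.symm hab)
    exact h1 (all b hb i hi (Ne.symm hab) hiu)
  · push Not at all
    obtain ⟨c, hc, d, hd, hcu, hdu, hrcd⟩ := all
    have hscd : s c d := (star c hc d hd hcu hdu).resolve_left hrcd
    have hs : ∀ z ∈ V, z ≠ u → s c z := by
      intro z hz hzu
      by_contra hsz
      have hrz : r c z := (star c hc z hz hcu hzu).resolve_right hsz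
      have hrzd : ¬ r z d := fun h => hrcd (rt c hc z hz d hd hrz h)
      have hszd : s z d := (star z hz d hd hzu hdu).resolve_left hrzd
      exact hsz (st c hc d hd z hz hscd (ss z hz d hd hszd))
    obtain ⟨i, hi, hiu, hic, -, h2⟩ := ng u ha c hc (Ne.symm hcu)
    exact h2 (hs i hi hiu)

end Pool.Agent.Run7.h447.FR
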